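import Pool.Agent.Y6.N.Stm
import Pool.Agent.Y275.ND.A6

/-! The passage to the fields (project NSK). -/

open Set Filter Topology MeasureTheory

set_option autoImplicit false

namespace Pool.Agent.Y960.NSK

open Pool.Agent.Y5 Pool.Agent.Y5.D Pool.Agent.Y6.N Pool.Agent.Y275.ND
open Pool.Agent.Y6.K (Kz lv)

variable {J : Type} {ν : ℝ} {g : J → ℕ} {F lm L C ℓ M N : ℕ → ℝ} {B : ℕ → ℕ → ℝ} {e : Ix J → Fam}

lemma syn_init {z : Ix J → ℝ} (h0 : z (Sum.inl 0) = 1) (h1 : ∀ n, z (Sum.inl (n + 1)) = 0)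
    (h2 : ∀ w, z (Sum.inr w) = 0) : syn e z = e (Sum.inl 0) := by
  funext k
  unfold syn
  rw [tsum_eq_single (Sum.inl 0)]
  · rw [h0, one_smul]
  · intro a ha
    cases a with
    | inl n =>
      cases n with
      | zero => exact absurd rfl ha
      | succ n => rw [h1, zero_smul]
    | inr w => rw [h2, zero_smul]

/-- the Laplacian in terms of the coefficients -/
lemma lap_pair (V W : Fam) : ∑' k, ‖vec k‖ ^ 2 * inner ℝ (V k) (W k) =
    pair (fun k => ‖vec k‖ ^ 2 • V k) W := by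
  unfold pair
  exact tsum_congr fun k => by rw [real_inner_smul_left]

lemma rap_bdd {V : Fam} (hV : Rap V) : ∃ X, ∀ k, ‖‖vec k‖ ^ 2 • V k‖ ≤ X := by
  obtain ⟨X, hX⟩ := hV 2
  refine ⟨X, fun k => ?_⟩
  rw [norm_smul, Real.norm_eq_abs, abs_of_nonneg (by positivity)]
  exact hX k

/-- the dissipative term is the Laplacian, tested with a mode -/
lemma lin_eq (h : Conc ν g F L ℓ M N e) {z : Ix J → ℝ}
    (hz : Summable (fun a => |z a| * M (gr g a))) (i : Ix J) :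
    lin (Dm ν e) z i =
      ν * ((2 * Real.pi) ^ 2 * ∑' k, ‖vec k‖ ^ 2 * inner ℝ (syn e z k) (e i k)) := by
  obtain ⟨X, hX⟩ := rap_bdd (rap_e h i)
  have h1 : ∑' k, ‖vec k‖ ^ 2 * inner ℝ (syn e z k) (e i k) =
      ∑' a, z a * pair (fun k => ‖vec k‖ ^ 2 • e i k) (e a) := by
    rw [← pair_syn h hz _ X hX, ← lap_pair]
    exact tsum_congr fun k => by rw [real_inner_comm]
  rw [h1]
  unfold lin Dm
  rw [← tsum_mul_left, ← tsum_mul_left]
  refine tsum_congr fun a => ?_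
  rw [lap_pair]
  ring

/-- the dissipation -/
lemma diss_eq (h : Conc ν g F L ℓ M N e) {z : Ix J → ℝ}
    (hz : Summable (fun a => |z a| * M (gr g a))) (hV : Rap (syn e z)) :
    ∑' a, z a * lin (Dm ν e) z a =
      ν * ((2 * Real.pi) ^ 2 * ∑' k, ‖vec k‖ ^ 2 * ‖syn e z k‖ ^ 2) := by
  obtain ⟨X, hX⟩ := rap_bdd hV
  have h1 : ∑' k, ‖vec k‖ ^ 2 * ‖syn e z k‖ ^ 2 =
      ∑' a, z a * pair (fun k => ‖vec k‖ ^ 2 • syn e z k) (e a) := by
    rw [← pair_syn h hz _ X hX, ← lap_pair]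
    exact tsum_congr fun k => by rw [real_inner_self_eq_norm_sq]
  rw [h1, ← tsum_mul_left, ← tsum_mul_left]
  refine tsum_congr fun a => ?_
  rw [lin_eq h hz, lap_pair]
  ring

theorem t_PHYSN : S_PHYSN := by
  intro hF hFB hBl hCo ν hν
  obtain ⟨J, g, o, σ, τ, F, lm, L, C, ℓ, ℓ', M, N, ρ, E, B, e, hc, hS, hS', hK, hR, hD, hE⟩ :=
    hCo ν hν
  obtain ⟨hip, hcnv, hdir⟩ := hF
  have hfin := hK.fin
  have hcard := hK.card
  have hM1 := hS.M_one
  have hL1 := L_one hS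
  obtain ⟨S, hS1, T, z, hT, hsol, hinit, huniq, hen, hder, hoth, hblow⟩ :=
    hBl J g o σ τ lm L C M ℓ ℓ' ρ E B (Dm ν e) _
      (fun n => M n ^ 2 / (M n * 2 ^ (n + 1)) ^ 4) hK hS hS' hR hD hE (fun n => by
        have := hM1 n
        positivity)
  -- decay of the coefficients
  have hgood : ∀ q : ℕ, ∀ t ∈ Ico 0 T, Summable (fun a => |z a t| * M (gr g a) ^ q) := by
    intro q t ht
    obtain ⟨Mk, hMk⟩ := hsol.reg (4 * q + 5) t ht.2
    exact (sum_of_dec hS hfin hcard q Mk (fun a => z a t) (hMk t ⟨ht.1, le_rfl⟩)).1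
  have hgood1 : ∀ t ∈ Ico 0 T, Summable (fun a => |z a t| * M (gr g a)) := by
    intro t ht
    simpa using hgood 1 t ht
  set V : ℝ → Fam := fun t => syn e (fun a => z a t) with hVdef
  have hVb : ∀ m : ℕ, ∀ T' < T, ∃ Mb, ∀ t ∈ Icc 0 T', ∀ k, ‖vec k‖ ^ m * ‖V t k‖ ≤ Mb := by
    intro m T' hT'
    obtain ⟨Mk, hMk⟩ := hsol.reg (4 * (m + 1) + 5) T' hT'
    refine ⟨Mk * M 0 ^ (m + 1) * ∑' a : Ix J, 1 / L (gr g a) ^ 5, fun t ht k => ?_⟩
    have ht' : t ∈ Ico 0 T := ⟨ht.1, lt_of_le_of_lt ht.2 hT'⟩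
    have h1 := sum_of_dec hS hfin hcard (m + 1) Mk (fun a => z a t) (hMk t ht)
    exact (syn_norm hc m (hgood1 t ht') h1.1 k).trans h1.2
  have hVot : ∀ t ∈ Ico 0 T, OT (V t) := fun t ht => syn_ot hc (hgood1 t ht)
  have hVrap : ∀ t ∈ Ico 0 T, Rap (V t) := by
    intro t ht m
    obtain ⟨Mb, hMb⟩ := hVb m t ht.2
    exact ⟨Mb, hMb t ⟨ht.1, le_rfl⟩⟩
  have hipz : ∀ t ∈ Ico 0 T, ∀ a, ip (fieldOf (V t)) (fieldOf (e a)) = z a t := by
    intro t ht a
    rw [hip _ _ (hVot t ht) (hVrap t ht) (hc.ot a) (rap_e hc a)]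
    exact pair_syn_e hc (hgood1 t ht) a
  -- the operator
  set s : Ix J → ℝ := fun i => Sum.elim (fun _ => 0) (fun j => S (o j) * τ j) i with hs
  have hKz : ∀ (y : Ix J → ℝ) (i : Ix J), Kz S o σ τ y i = s i * y (Sum.map id σ i) := by
    intro y i
    cases i with
    | inl n => simp [Kz, hs]
    | inr j => simp [Kz, hs]
  refine ⟨Ix J, fun a => fieldOf (e a), Sum.map id σ, s, Sum.inl 0, T, fun t => fieldOf (V t),
    ?_, hT, ?_, ?_, ?_, ?_, ?_⟩
  · -- Skew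
    refine ⟨fun a => ⟨e a, hc.ot a, supp_finite hc a, rfl⟩, ?_, ?_, ?_, ?_⟩
    · intro i j
      rw [hip _ _ (hc.ot i) (rap_e hc i) (hc.ot j) (rap_e hc j)]
      exact hc.orth i j
    · rintro v ⟨V', hV0, hV, rfl⟩ h1 y
      have h2 : ∀ a, pair V' (e a) = 0 := by
        intro a
        rw [← hip _ _ hV0 hV (hc.ot a) (rap_e hc a)]
        exact h1 a
      have h3 := hc.compl V' hV0 h2
      unfold fieldOf
      simp [h3]
    · intro i
      cases i with
      | inl n => rfl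
      | inr j => simp [hR.inv]
    · intro i
      cases i with
      | inl n => simp [hs]
      | inr j => simp [hs, hR.grp, hR.skew]
  · -- SolN
    refine ⟨⟨V, fun t ht => ⟨hVot t ht, rfl⟩, hVb⟩, ?_⟩
    intro i t ht
    have h1 := hsol.deriv i t ht
    have h2 : HasDerivWithinAt (fun τ => ip (fieldOf (V τ)) (fieldOf (e i)))
        (Kz S o σ τ (fun a => z a t) i - lin (Dm ν e) (fun a => z a t) i +
          qd (fun j a b => bil (e a) (e b) (e j)) (fun a => z a t) i)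
        (Ico 0 T) t :=
      h1.congr (fun τ hτ => hipz τ hτ i) (hipz t ht i)
    refine h2.congr_deriv ?_
    rw [hipz t ht (Sum.map id σ i), hcnv _ _ (hVot t ht) (hVrap t ht) (hc.ot i) (rap_e hc i),
      hFB _ _ (hVot t ht) (hVrap t ht) (hc.ot i) (rap_e hc i),
      bil_syn hc (hgood1 t ht) i, lin_eq hc (hgood1 t ht) i, hKz]
    ring
  · -- initial datum
    show fieldOf (V 0) = fieldOf (e (Sum.inl 0))
    rw [hVdef]
    simp only
    rw [syn_init hinit.1 hinit.2.1 hinit.2.2]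
  · -- uniqueness
    intro T' v hT' hv hv0
    obtain ⟨V', hV', hV'b⟩ := hv.reg
    have hrap : ∀ t ∈ Ico 0 T', Rap (V' t) := by
      intro t ht m
      obtain ⟨Mb, hMb⟩ := hV'b m t ht.2
      exact ⟨Mb, hMb t ⟨ht.1, le_rfl⟩⟩
    set z' : Ix J → ℝ → ℝ := fun a t => pair (V' t) (e a) with hz'
    have hipz' : ∀ t ∈ Ico 0 T', ∀ a, ip (v t) (fieldOf (e a)) = z' a t := by
      intro t ht a
      rw [(hV' t ht).2, hip _ _ (hV' t ht).1 (hrap t ht) (hc.ot a) (rap_e hc a)]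
    have hgood' : ∀ t ∈ Ico 0 T', Summable (fun a => |z' a t| * M (gr g a)) :=
      fun t ht => coef_good1 hc hS hfin hcard (V' t) (hrap t ht)
    have hexp : ∀ t ∈ Ico 0 T', V' t = syn e (fun a => z' a t) :=
      fun t ht => expand hc hS hfin hcard (V' t) (hV' t ht).1 (hrap t ht)
    have h0mem : (0:ℝ) ∈ Ico 0 T' := ⟨le_rfl, hT'⟩
    have hz0 : ∀ a, z' a 0 = pair (e (Sum.inl 0)) (e a) := by
      intro a
      rw [← hipz' 0 h0mem a, hv0, hip _ _ (hc.ot _) (rap_e hc _) (hc.ot a) (rap_e hc a)]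
    have hderiv' : ∀ i, ∀ t ∈ Ico 0 T', HasDerivWithinAt (z' i)
        (Kz S o σ τ (fun a => z' a t) i - lin (Dm ν e) (fun a => z' a t) i +
          qd (fun j a b => bil (e a) (e b) (e j)) (fun a => z' a t) i)
        (Ico 0 T') t := by
      intro i t ht
      have h1 := hv.eqn i t ht
      have h2 : HasDerivWithinAt (z' i)
          (s i * ip (v t) (fieldOf (e (Sum.map id σ i))) - ν * dirb (v t) (fieldOf (e i)) -
            cnv (v t) (fieldOf (e i))) (Ico 0 T') t :=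
        h1.congr (fun τ hτ => (hipz' τ hτ i).symm) (hipz' t ht i).symm
      refine h2.congr_deriv ?_
      rw [hipz' t ht (Sum.map id σ i), (hV' t ht).2,
        hcnv _ _ (hV' t ht).1 (hrap t ht) (hc.ot i) (rap_e hc i),
        hFB _ _ (hV' t ht).1 (hrap t ht) (hc.ot i) (rap_e hc i),
        bil_syn hc (hgood' t ht) i, lin_eq hc (hgood' t ht) i, ← hexp t ht, hKz]
      ring
    obtain ⟨D, hD0, hcoef⟩ := coef_dec hc hS
    have hreg' : ∀ k : ℕ, ∀ T'' < T', ∃ X, ∀ t ∈ Icc 0 T'', ∀ i,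
        L (gr g i) ^ k * |z' i t| ≤ X := by
      intro k T'' hT''
      obtain ⟨μ, hμ⟩ := hV'b (3 * (k + 4)) T'' hT''
      exact ⟨D ^ (k + 4) * μ * M 0, fun t ht i => hcoef k (V' t) μ (hμ t ht) i⟩
    have hnsol : NSol S o σ τ (Dm ν e) (fun j a b => bil (e a) (e b) (e j)) g L T' z' :=
      ⟨hderiv', hreg'⟩
    have hinit' : Init z' := by
      refine ⟨?_, fun n => ?_, fun w => ?_⟩
      · rw [hz0]; exact (hc.orth _ _).1 rfl
      · rw [hz0]; exact (hc.orth _ _).2 (by simp)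
      · rw [hz0]; exact (hc.orth _ _).2 (by simp)
    obtain ⟨h1, h2⟩ := huniq T' z' hT' hnsol hinit'
    refine ⟨h1, fun t ht => ?_⟩
    rw [(hV' t ht).2, hexp t ht]
    have h3 : (fun a => z' a t) = fun a => z a t := funext (fun a => h2 a t ht)
    rw [h3]
  · -- energy identity
    intro t ht
    obtain ⟨h1, h2⟩ := hder t ht
    have hpar : ∀ τ ∈ Ico 0 T, ip (fieldOf (V τ)) (fieldOf (V τ)) = ∑' a, z a τ ^ 2 := by
      intro τ hτ
      rw [hip _ _ (hVot τ hτ) (hVrap τ hτ) (hVot τ hτ) (hVrap τ hτ)]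
      exact pair_self hc (hgood1 τ hτ)
    have h3 : ∑' a, z a t * lin (Dm ν e) (fun b => z b t) a = ν * dir (fieldOf (V t)) := by
      rw [hdir _ (hVot t ht) (hVrap t ht)]
      exact diss_eq hc (hgood1 t ht) (hVrap t ht)
    rw [h3] at h2
    exact h2.congr (fun τ hτ => hpar τ hτ) (hpar t ht)
  · -- blow-up
    intro Mb
    obtain ⟨n, hn⟩ := N_unbounded hc (2000 * (Mb + 2))
    obtain ⟨t, ht, h3, h4⟩ := hblow n
    have h1 : ∀ a, |z a t| ≤ 1 := by
      intro a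
      obtain ⟨h5, h6⟩ := hen t ht
      have h7 : z a t ^ 2 ≤ 1 := (h5.le_tsum a (fun _ _ => sq_nonneg _)).trans h6
      exact abs_le_one_iff_mul_self_le_one.2 (by nlinarith)
    obtain ⟨y, hy⟩ := blow_lower hc hS hfin hcard (fun n => M n * 2 ^ (n + 1))
      (fun n => le_rfl) (z := fun a => z a t) (hgood1 t ht) h1
      (fun w => hoth w t ht) n h3 h4
    refine ⟨t, ht, y, ?_⟩
    have h5 : (8 / 1000 : ℝ) ^ n * N n / 2000 - 2 ≤ ‖fieldOf (V t) y‖ := hy
    linarith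

end Pool.Agent.Y960.NSK
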